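import Pool.Agent.H.MP_4da108_an.D

set_option autoImplicit false

namespace Pool.Agent.Results.MP_4da108_an.Exists

open Pool.Agent.H.MP_4da108_an
open scoped InnerProductSpace

/-- `A` with the unitaries `u g` is the full C*-algebra of the discrete group `G` -/
def IsFull (G : Type) [Group G] (A : Type 1) [CStarAlgebra A] (u : G →* unitary A) : Prop :=
  Dense (Submodule.span ℂ (Set.range fun g => (u g : A)) : Set A) ∧
  ∀ (B : Type) [CStarAlgebra B] (v : G →* unitary B),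
    ∃ φ : A →⋆ₐ[ℂ] B, ∀ g, φ (u g) = v g

/-- irreducible representations -/
def Irr {A H : Type 1} [CStarAlgebra A] [NormedAddCommGroup H] [InnerProductSpace ℂ H]
    [CompleteSpace H] (π : A →⋆ₐ[ℂ] (H →L[ℂ] H)) : Prop :=
  Nontrivial H ∧
    ∀ K : Submodule ℂ H, IsClosed (K : Set H) → (∀ a, ∀ x ∈ K, π a x ∈ K) → K = ⊥ ∨ K = ⊤

/-- primitive ideals -/
def Prim {A : Type 1} [CStarAlgebra A] (P : TwoSidedIdeal A) : Prop :=
  ∃ (H : Type 1) (_ : NormedAddCommGroup H) (_ : InnerProductSpace ℂ H) (_ : CompleteSpace H)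
    (π : A →⋆ₐ[ℂ] (H →L[ℂ] H)), Irr π ∧ ∀ a, a ∈ P ↔ π a = 0

/-- weak centrality of a unital C*-algebra -/
def WeaklyCentral (A : Type 1) [CStarAlgebra A] : Prop :=
  (∀ M N : TwoSidedIdeal A, IsCoatom M → IsCoatom N →
    (∀ z ∈ Set.center A, z ∈ M ↔ z ∈ N) → M = N) ∧
  ∀ M : TwoSidedIdeal A, IsCoatom M → ∃ z ∈ Set.center A, z ∉ M

/-- centrality of a unital C*-algebra -/
def Central (A : Type 1) [CStarAlgebra A] : Prop :=
  ∀ P Q : TwoSidedIdeal A, Prim P → Prim Q → (∀ z ∈ Set.center A, z ∈ P ↔ z ∈ Q) → P = Q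

theorem result :
    ∃ (G : Type) (_ : Group G) (_ : Countable G) (A : Type 1) (_ : CStarAlgebra A)
      (u : G →* unitary A), IsFull G A u ∧ WeaklyCentral A ∧ ¬ Central A := by
  classical
  obtain ⟨ε, hε⟩ := uu_univ LG ℂ 1
  replace hε : ∀ g, ε (uu LG g) = 1 := fun g => by simpa using hε g
  have hd := uu_dense LG
  have hker : TwoSidedIdeal.ker ε ≠ ⊤ := by
    rw [Ne, ← TwoSidedIdeal.one_mem_iff, TwoSidedIdeal.mem_ker]
    simp
  have hco : ∀ M : TwoSidedIdeal (CG LG), IsCoatom M → M = TwoSidedIdeal.ker ε := by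
    intro M hM
    have hle : M ≤ TwoSidedIdeal.ker ε := fun a ha =>
      (TwoSidedIdeal.mem_ker _).2 (le_ker hd hε M hM.1 ha)
    exact ((hM.le_iff.1 hle).resolve_left hker).symm
  refine ⟨LG, inferInstance, inferInstance, CG LG, inferInstance, uu LG,
    ⟨hd, fun B _ v => uu_univ LG B v⟩, ⟨fun M N hM hN _ => (hco M hM).trans (hco N hN).symm,
      fun M hM => ⟨1, Set.one_mem_center, fun h => hM.1 ((TwoSidedIdeal.one_mem_iff _).1 h)⟩⟩, ?_⟩
  intro hc
  obtain ⟨v, b, hv⟩ := exists_reg LG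
  obtain ⟨lam, hlam⟩ := uu_univ LG _ v
  obtain ⟨g, hg⟩ := exists_ne (1 : LG)
  have hb : b 1 ≠ 0 := b.orthonormal.ne_zero 1
  obtain ⟨H, i1, i2, i3, π, ξ, hn, hne, hirr⟩ := exists_irr (vec_state lam (b 1) hb) ε (by
    intro h
    have := congrFun h (uu LG g)
    rw [hε, hlam, hv, mul_one, b.orthonormal.inner_eq_zero hg.symm] at this
    simp at this)
  have hξ : ξ ≠ 0 := by
    rintro rfl
    simp at hn
  let E : Type 1 := EuclideanSpace ℂ PUnit.{2}
  let π0 : CG LG →⋆ₐ[ℂ] (E →L[ℂ] E) := (StarAlgHom.ofId ℂ _).comp ε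
  have hP : Prim (TwoSidedIdeal.ker π) :=
    ⟨H, i1, i2, i3, π, ⟨⟨ξ, 0, hξ⟩, hirr⟩, fun a => TwoSidedIdeal.mem_ker _⟩
  have hQ : Prim (TwoSidedIdeal.ker ε) := by
    refine ⟨E, inferInstance, inferInstance, inferInstance, π0, ⟨inferInstance, fun K _ _ => ?_⟩,
      fun a => ?_⟩
    · have : IsSimpleModule ℂ E := isSimpleModule_iff_finrank_eq_one.2 (by simp [E])
      exact eq_bot_or_eq_top K
    · rw [TwoSidedIdeal.mem_ker]
      exact (map_eq_zero_iff (algebraMap ℂ (E →L[ℂ] E)) (algebraMap ℂ _).injective).symm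
  have hπ : TwoSidedIdeal.ker π ≠ ⊤ := by
    rw [Ne, ← TwoSidedIdeal.one_mem_iff, TwoSidedIdeal.mem_ker, map_one]
    intro h
    exact hξ (by simpa using DFunLike.congr_fun h ξ)
  have heq := hc _ _ hP hQ fun z hz => ⟨fun h => (TwoSidedIdeal.mem_ker _).2 (le_ker hd hε _ hπ h),
    fun h => center_zero hd hε hz ((TwoSidedIdeal.mem_ker _).1 h) ▸ TwoSidedIdeal.zero_mem _⟩
  apply hne
  funext a
  have h1 : a - algebraMap ℂ _ (ε a) ∈ TwoSidedIdeal.ker π := by
    rw [heq, TwoSidedIdeal.mem_ker, map_sub, AlgHomClass.commutes]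
    simp
  rw [TwoSidedIdeal.mem_ker, map_sub, sub_eq_zero, AlgHomClass.commutes] at h1
  rw [h1, Algebra.algebraMap_eq_smul_one]
  simp [inner_self_eq_norm_sq_to_K, hn]

end Pool.Agent.Results.MP_4da108_an.Exists
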